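import Pool.Agent.Helper321_Det.Run
import Pool.Agent.Helper321_Dec.Asym

set_option autoImplicit false

/-!
# The determinant of `1 + A + B + C` with the blocks `A`, `B`, `C` at the places `(0, 1)`, `(1, 2)`,
`(2, 0)`
-/

namespace Pool.Agent.Helper321_Det

open MvPolynomial Pool.Agent.Helper321_Dec

/-- the coefficients with the indices `i`, `j`, `k` -/
def pick {R I J K : Type} [CommRing R] (i : I) (j : J) (k : K) :
    Jet R I J K →+* Jet R Unit Unit Unit where
  toFun x := ⟨x.z, fun _ => x.a i, fun _ => x.b j, fun _ => x.c k, fun _ _ => x.ab i j,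
    fun _ _ => x.ac i k, fun _ _ => x.bc j k, fun _ _ _ => x.abc i j k⟩
  map_one' := rfl
  map_zero' := rfl
  map_mul' _ _ := rfl
  map_add' _ _ := rfl

section

variable {R : Type} [CommRing R]

/-- the first generator -/
def ga (R : Type) [CommRing R] : Jet R Unit Unit Unit :=
  ⟨0, fun _ => 1, fun _ => 0, fun _ => 0, fun _ _ => 0, fun _ _ => 0, fun _ _ => 0,
    fun _ _ _ => 0⟩

/-- the second generator -/
def gb (R : Type) [CommRing R] : Jet R Unit Unit Unit :=
  ⟨0, fun _ => 0, fun _ => 1, fun _ => 0, fun _ _ => 0, fun _ _ => 0, fun _ _ => 0,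
    fun _ _ _ => 0⟩

/-- the third generator -/
def gc (R : Type) [CommRing R] : Jet R Unit Unit Unit :=
  ⟨0, fun _ => 0, fun _ => 0, fun _ => 1, fun _ _ => 0, fun _ _ => 0, fun _ _ => 0,
    fun _ _ _ => 0⟩

/-- the product of the generators -/
def gabc (R : Type) [CommRing R] : Jet R Unit Unit Unit :=
  ⟨0, fun _ => 0, fun _ => 0, fun _ => 0, fun _ _ => 0, fun _ _ => 0, fun _ _ => 0,
    fun _ _ _ => 1⟩

lemma gabc_eq : gb R * gc R * ga R = gabc R := by
  ext <;> simp [ga, gb, gc, gabc]

variable {N n : ℕ}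

/-- the generic matrix with three blocks -/
def Z (R : Type) [CommRing R] (h : 3 * n ≤ N) :
    Matrix (Fin N) (Fin N) (Jet R (E n) (E n) (E n)) := Matrix.of fun r s =>
  ⟨0, fun e => if r = emb h (0, e.1) ∧ s = emb h (1, e.2) then 1 else 0,
    fun e => if r = emb h (1, e.1) ∧ s = emb h (2, e.2) then 1 else 0,
    fun e => if r = emb h (2, e.1) ∧ s = emb h (0, e.2) then 1 else 0,
    fun _ _ => 0, fun _ _ => 0, fun _ _ => 0, fun _ _ _ => 0⟩

/-- the product of the generic blocks -/
def tau (R : Type) [CommRing R] (n : ℕ) : Jet R (E n) (E n) (E n) :=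
  ⟨0, fun _ => 0, fun _ => 0, fun _ => 0, fun _ _ => 0, fun _ _ => 0, fun _ _ => 0,
    fun a b c => if a.2 = b.1 ∧ b.2 = c.1 ∧ c.2 = a.1 then 1 else 0⟩

lemma pick_det (h : 3 * n ≤ N) (e e' e'' : E n) :
    pick e e' e'' ((1 + Z R h).det) = pick e e' e'' (1 + tau R n) := by
  classical
  let U : Matrix (Fin N) (Fin 3) (Jet R Unit Unit Unit) := Matrix.of fun r q =>
    ![if r = emb h (0, e.1) then ga R else 0, if r = emb h (1, e'.1) then gb R else 0,
      if r = emb h (2, e''.1) then gc R else 0] q
  let W : Matrix (Fin 3) (Fin N) (Jet R Unit Unit Unit) := Matrix.of fun q s =>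
    ![if s = emb h (1, e.2) then 1 else 0, if s = emb h (2, e'.2) then 1 else 0,
      if s = emb h (0, e''.2) then 1 else 0] q
  have hUW : (pick e e' e'').mapMatrix (1 + Z R h) = 1 + U * W := by
    rw [map_add, map_one]
    congr 1
    ext1 r s
    rw [Matrix.mul_apply, Fin.sum_univ_three]
    simp only [U, W, Matrix.of_apply, Matrix.cons_val_zero, Matrix.cons_val_one,
      Matrix.cons_val_two, Matrix.head_cons, Matrix.tail_cons, RingHom.mapMatrix_apply,
      Matrix.map_apply]
    ext <;> simp only [Z, pick, Matrix.of_apply, RingHom.coe_mk, MonoidHom.coe_mk, OneHom.coe_mk,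
      Jet.add_z, Jet.add_a, Jet.add_b, Jet.add_c, Jet.add_ab, Jet.add_ac, Jet.add_bc, Jet.add_abc,
      ga, gb, gc] <;> split_ifs <;> simp_all
  rw [RingHom.map_det, hUW, Matrix.det_one_add_mul_comm]
  have hi := emb_injective h
  have hWU : W * U = !![0, if e.2 = e'.1 then gb R else 0, 0; 0, 0,
      if e'.2 = e''.1 then gc R else 0; if e''.2 = e.1 then ga R else 0, 0, 0] := by
    ext1 q q'
    rw [Matrix.mul_apply]
    fin_cases q <;> fin_cases q' <;> simp [U, W, hi.eq_iff] <;>
      exact if_congr eq_comm rfl rfl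
  rw [hWU, Matrix.det_fin_three]
  have e1 : (1 + !![0, if e.2 = e'.1 then gb R else 0, 0; 0, 0,
      if e'.2 = e''.1 then gc R else 0; if e''.2 = e.1 then ga R else 0, 0, 0] :
      Matrix (Fin 3) (Fin 3) (Jet R Unit Unit Unit)) = !![1, if e.2 = e'.1 then gb R else 0, 0;
      0, 1, if e'.2 = e''.1 then gc R else 0; if e''.2 = e.1 then ga R else 0, 0, 1] := by
    ext1 q q'
    fin_cases q <;> fin_cases q' <;> simp
  rw [e1]
  simp only [Matrix.of_apply, Matrix.cons_val', Matrix.cons_val_zero, Matrix.cons_val_one,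
    Matrix.cons_val_two, Matrix.head_cons, Matrix.tail_cons, Matrix.cons_val_fin_one,
    Matrix.empty_val', Matrix.head_fin_const, mul_one, one_mul, mul_zero, zero_mul, sub_zero,
    add_zero]
  have e2 : (pick e e' e'') (1 + tau R n) = 1 + if e.2 = e'.1 ∧ e'.2 = e''.1 ∧ e''.2 = e.1 then
      gabc R else 0 := by
    rw [map_add, map_one]
    congr 1
    split_ifs with hc <;> ext <;> simp [pick, tau, gabc, hc]
  rw [e2]
  by_cases h1 : e.2 = e'.1 <;> by_cases h2 : e'.2 = e''.1 <;> by_cases h3 : e''.2 = e.1 <;>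
    simp [h1, h2, h3, gabc_eq]

lemma det_one_add_Z (h : 3 * n ≤ N) : (1 + Z R h).det = 1 + tau R n := by
  have key := fun e e' e'' => pick_det (R := R) h e e' e''
  apply Jet.ext
  · have h1 : Jet.zHom ((1 + Z R h).det) = 1 := by
      rw [RingHom.map_det, map_add, map_one]
      have : Jet.zHom.mapMatrix (Z R h) = 0 := by
        ext r s
        rfl
      rw [this, add_zero, Matrix.det_one]
    rw [Jet.zHom_apply] at h1
    rw [h1]
    simp [tau]
  · funext e
    have := congrArg (fun x => x.a ()) (key e e e)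
    exact this
  · funext e
    have := congrArg (fun x => x.b ()) (key e e e)
    exact this
  · funext e
    have := congrArg (fun x => x.c ()) (key e e e)
    exact this
  · funext e e'
    have := congrArg (fun x => x.ab () ()) (key e e' e)
    exact this
  · funext e e'
    have := congrArg (fun x => x.ac () ()) (key e e e')
    exact this
  · funext e e'
    have := congrArg (fun x => x.bc () ()) (key e e e')
    exact this
  · funext e e' e''
    have := congrArg (fun x => x.abc () () ()) (key e e' e'')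
    exact this

end

end Pool.Agent.Helper321_Det
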