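import Pool.Agent.Helper321_Det.Cyc

set_option autoImplicit false

/-!
# The hypersurface `Q (y) det X = P (y)`
-/

namespace Pool.Agent.Helper321_Det

open MvPolynomial Pool.Agent.Helper321_Dec

variable {F : Type} [Field F] {N n : ℕ} {Y : Type}

/-- the names of the variables: the entries of `X`, and the parameters -/
abbrev Vn (N : ℕ) (Y : Type) : Type := (Fin N × Fin N) ⊕ Y

/-- the matrix `X` and the parameters `y` as one input -/
def pack (X : Matrix (Fin N) (Fin N) F) (y : Y → F) : Vn N Y → F :=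
  Sum.elim (fun e => X e.1 e.2) y

/-- the matrix -/
def matOf (p : Vn N Y → F) : Matrix (Fin N) (Fin N) F := Matrix.of fun r s => p (.inl (r, s))

lemma pack_eta (p : Vn N Y → F) : pack (matOf p) (fun y => p (.inr y)) = p := by
  funext w
  rcases w with w | w <;> rfl

/-- the matrix of the variables -/
noncomputable def XM (F : Type) [Field F] (N : ℕ) (Y : Type) :
    Matrix (Fin N) (Fin N) (MvPolynomial (Vn N Y) F) := Matrix.of fun r s => X (.inl (r, s))

lemma eval_XM (p : Vn N Y → F) : (eval p).mapMatrix (XM F N Y) = matOf p := by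
  ext r s
  simp [XM, matOf]

/-- the equation of the hypersurface -/
noncomputable def fP (P Q : MvPolynomial Y F) (N : ℕ) : MvPolynomial (Vn N Y) F :=
  rename .inr Q * (XM F N Y).det - rename .inr P

lemma eval_ren (P : MvPolynomial Y F) (p : Vn N Y → F) :
    eval p (rename .inr P) = eval (fun y => p (.inr y)) P := by
  rw [eval_rename]
  rfl

lemma eval_fP (P Q : MvPolynomial Y F) (p : Vn N Y → F) :
    eval p (fP P Q N) = eval (fun y => p (.inr y)) Q * (matOf p).det -
      eval (fun y => p (.inr y)) P := by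
  rw [fP, map_sub, map_mul, eval_ren, eval_ren, RingHom.map_det, eval_XM]

/-- the coefficient of the variable -/
noncomputable def sP (Q : MvPolynomial Y F) (r₀ s₀ : Fin N) : MvPolynomial (Vn N Y) F :=
  rename .inr Q * (XM F N Y).adjugate s₀ r₀

/-- the rest -/
noncomputable def gP (P Q : MvPolynomial Y F) (r₀ s₀ : Fin N) : MvPolynomial (Vn N Y) F :=
  rename .inr Q * ∑ j ∈ Finset.univ.erase s₀, X (.inl (r₀, j)) * (XM F N Y).adjugate j r₀ -
    rename .inr P

lemma fP_eq (P Q : MvPolynomial Y F) (r₀ s₀ : Fin N) :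
    fP P Q N = sP Q r₀ s₀ * X (.inl (r₀, s₀)) + gP P Q r₀ s₀ := by
  rw [fP, sP, gP, Matrix.det_eq_sum_mul_adjugate_row (XM F N Y) r₀,
    ← Finset.add_sum_erase _ _ (Finset.mem_univ s₀)]
  simp only [XM, Matrix.of_apply]
  ring

section

variable [DecidableEq (Vn N Y)]

lemma ren_free (P : MvPolynomial Y F) (r₀ s₀ : Fin N) :
    rename .inr P ∈ free (F := F) (.inl (r₀, s₀) : Vn N Y) := by
  refine mem_free.2 fun x c => ?_
  rw [eval_ren, eval_ren]
  congr 2
  funext y
  rw [Function.update_of_ne (by simp)]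

lemma adj_free (r₀ s₀ j : Fin N) :
    (XM F N Y).adjugate j r₀ ∈ free (F := F) (.inl (r₀, s₀) : Vn N Y) := by
  classical
  refine mem_free.2 fun x c => ?_
  have h : ∀ p : Vn N Y → F, eval p ((XM F N Y).adjugate j r₀) =
      ((matOf p).updateRow r₀ (Pi.single j 1)).det := by
    intro p
    rw [← Matrix.adjugate_apply, ← eval_XM, ← RingHom.map_adjugate]
    rfl
  rw [h, h]
  congr 1
  ext r s
  rw [Matrix.updateRow_apply, Matrix.updateRow_apply]
  split_ifs with hr
  · rfl
  · simp only [matOf, Matrix.of_apply]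
    rw [Function.update_of_ne]
    intro h
    simp only [Sum.inl.injEq, Prod.mk.injEq] at h
    exact hr h.1

lemma sP_free (Q : MvPolynomial Y F) (r₀ s₀ : Fin N) :
    sP Q r₀ s₀ ∈ free (F := F) (.inl (r₀, s₀) : Vn N Y) :=
  Subring.mul_mem _ (ren_free Q r₀ s₀) (adj_free r₀ s₀ s₀)

lemma gP_free (P Q : MvPolynomial Y F) (r₀ s₀ : Fin N) :
    gP P Q r₀ s₀ ∈ free (F := F) (.inl (r₀, s₀) : Vn N Y) := by
  refine Subring.sub_mem _ (Subring.mul_mem _ (ren_free Q r₀ s₀)
    (Subring.sum_mem _ fun j hj => Subring.mul_mem _ (X_mem_free ?_) (adj_free r₀ s₀ j)))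
    (ren_free P r₀ s₀)
  intro h
  simp only [Sum.inl.injEq, Prod.mk.injEq, true_and] at h
  exact (Finset.ne_of_mem_erase hj) h

end

lemma eval_sP (Q : MvPolynomial Y F) (r₀ s₀ : Fin N) (p : Vn N Y → F) :
    eval p (sP Q r₀ s₀) = eval (fun y => p (.inr y)) Q * (matOf p).adjugate s₀ r₀ := by
  rw [sP, map_mul, eval_ren, ← eval_XM p, ← RingHom.map_adjugate]
  rfl

section

variable [DecidableEq (Vn N Y)]

/-- the matrix `X + t E` with the entries as power series -/
noncomputable def Mt (v : Vn N Y) (p : Vn N Y → F) : Matrix (Fin N) (Fin N) (PowerSeries F) :=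
  Matrix.of fun r s => PowerSeries.C (p (.inl (r, s))) +
    if (.inl (r, s) : Vn N Y) = v then PowerSeries.X else 0

/-- the matrix `(X + t E) (1 + A + B + C)` -/
noncomputable def thetaM (h : 3 * n ≤ N) (v : Vn N Y) (p : Vn N Y → F) :
    Matrix (Fin N) (Fin N) (Jet (PowerSeries F) (E n) (E n) (E n)) :=
  (Jet.cst : PowerSeries F →+* Jet (PowerSeries F) (E n) (E n) (E n)).mapMatrix (Mt v p) *
    (1 + Z (PowerSeries F) h)

/-- the directions -/
noncomputable def theta (h : 3 * n ≤ N) (v : Vn N Y) (p : Vn N Y → F) :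
    Vn N Y → Jet (PowerSeries F) (E n) (E n) (E n)
  | .inl e => thetaM h v p e.1 e.2
  | .inr y => Jet.cst (PowerSeries.C (p (.inr y)))

lemma theta_at (h : 3 * n ≤ N) (r₀ s₀ : Fin N) (p : Vn N Y → F) :
    At (.inl (r₀, s₀) : Vn N Y) p (theta h (.inl (r₀, s₀)) p) := by
  intro w
  rcases w with ⟨r, s⟩ | y
  · have h1 : Jet.zHom.mapMatrix (thetaM h (.inl (r₀, s₀)) p) = Mt (.inl (r₀, s₀)) p := by
      rw [thetaM, map_mul, map_add, map_one]
      have h2 : Jet.zHom.mapMatrix (Z (PowerSeries F) h) = 0 := by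
        ext r s
        rfl
      have h3 : Jet.zHom.mapMatrix ((Jet.cst : PowerSeries F →+* Jet (PowerSeries F) (E n) (E n)
          (E n)).mapMatrix (Mt (.inl (r₀, s₀)) p)) = Mt (.inl (r₀, s₀)) p := by
        ext r s
        rfl
      rw [h2, h3, add_zero, mul_one]
    have h4 := congrFun (congrFun h1 r) s
    exact h4
  · simp [theta]

lemma theta_low (h : 3 * n ≤ N) (v : Vn N Y) (p : Vn N Y → F) (w : Vn N Y) :
    (theta h v p w).low = theta h v p w := by
  rcases w with ⟨r, s⟩ | y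
  · simp only [theta, thetaM, Matrix.mul_apply, RingHom.mapMatrix_apply, Matrix.map_apply]
    rw [Jet.low_sum]
    refine Finset.sum_congr rfl fun k _ => ?_
    rw [Jet.low_cst_mul]
    congr 1
    rw [Matrix.add_apply, Jet.low_add]
    congr 1
    · rw [Matrix.one_apply]
      split_ifs
      · ext <;> simp [Jet.low]
      · ext <;> simp [Jet.low]
    · ext <;> simp [Jet.low, Z]
  · exact Jet.low_cst _

lemma Psi_ren (h : 3 * n ≤ N) (v : Vn N Y) (p : Vn N Y → F) (P : MvPolynomial Y F) :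
    Psi (theta h v p) (rename .inr P) =
      Jet.cst (PowerSeries.C (eval (fun y => p (.inr y)) P)) := by
  induction P using MvPolynomial.induction_on with
  | C a => rw [rename_C, Psi_C, eval_C]
  | add P P' hP hP' => rw [map_add, map_add, map_add, map_add, map_add, hP, hP']
  | mul_X P y hP =>
    rw [map_mul, map_mul, map_mul, map_mul, map_mul, hP, rename_X, Psi_X, eval_X]
    rfl

lemma Psi_fP (h : 3 * n ≤ N) (v : Vn N Y) (p : Vn N Y → F) (P Q : MvPolynomial Y F) :
    Psi (theta h v p) (fP P Q N) =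
      Jet.cst (PowerSeries.C (eval (fun y => p (.inr y)) Q) * (Mt v p).det) *
        (1 + tau (PowerSeries F) n) -
      Jet.cst (PowerSeries.C (eval (fun y => p (.inr y)) P)) := by
  have h1 : (Psi (theta h v p)).mapMatrix (XM F N Y) = thetaM h v p := by
    ext1 r s
    rw [RingHom.mapMatrix_apply, Matrix.map_apply, XM, Matrix.of_apply, Psi_X]
    rfl
  rw [fP, map_sub, map_mul, Psi_ren, Psi_ren, RingHom.map_det, h1, thetaM, Matrix.det_mul,
    det_one_add_Z, ← RingHom.map_det, map_mul, mul_assoc]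

lemma key_at [Infinite F] (h : 3 * n ≤ N) (r₀ s₀ : Fin N) (p : Vn N Y → F)
    (P Q : MvPolynomial Y F) (hp : eval p (fP P Q N) = 0)
    (hP : eval (fun y => p (.inr y)) P ≠ 0) :
    KeyAt (Psi (theta h (.inl (r₀, s₀)) p) (fP P Q N)) (mm F n) := by
  have hz := Psi_f_z (sP_free Q r₀ s₀) (gP_free P Q r₀ s₀) (fP_eq P Q r₀ s₀)
    (theta_at h r₀ s₀ p) hp
  rw [Psi_fP] at hz ⊢
  have hz' : PowerSeries.C (eval (fun y => p (.inr y)) Q) * (Mt (.inl (r₀, s₀)) p).det =
      PowerSeries.C (eval (fun y => p (.inr y)) P) +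
      PowerSeries.X * PowerSeries.C (eval p (sP Q r₀ s₀)) := by
    rw [← hz]
    simp [tau]
  rw [hz']
  refine ⟨?_, ?_, ?_, ?_, ?_, ?_, _, hP, fun i j k => PowerSeries.C (eval p (sP Q r₀ s₀) *
    mm F n i j k), ?_⟩
  · intro i; simp [tau]
  · intro i; simp [tau]
  · intro i; simp [tau]
  · intro i j; simp [tau]
  · intro i j; simp [tau]
  · intro i j; simp [tau]
  · intro i j k
    simp only [Jet.sub_abc, Jet.cst_abc, sub_zero, Jet.mul_abc, Jet.cst_z, Jet.cst_a, Jet.cst_b,
      Jet.cst_c, Jet.cst_ab, Jet.cst_ac, Jet.cst_bc, Jet.cst_abc, zero_mul, add_zero,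
      Jet.add_abc, Jet.one_abc, zero_add, tau, mm]
    split_ifs
    · simp
    · simp

end

end Pool.Agent.Helper321_Det
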