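import Pool.Agent.Helper321_Det.Det

set_option autoImplicit false

/-!
# The bound for `Q (y) det X = P (y)`
-/

namespace Pool.Agent.Helper321_Det

open MvPolynomial Pool.Agent.Helper321_Dec Pool.Agent.TH410.MM Filter

variable {F : Type} [Field F] {N n : ℕ} {Y : Type}

/-- A value which may be given for free: a polynomial of degree at most one in the entries of `X`,
whose coefficients are arbitrary rational functions, with a common denominator, of the
parameters `y`. -/
structure Free (F : Type) [Field F] (N : ℕ) (Y : Type) where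
  const : MvPolynomial Y F
  coeff : Fin N × Fin N → MvPolynomial Y F
  den : MvPolynomial Y F

/-- The value, for the matrix `X` and the parameters `y`. -/
noncomputable def Free.val (u : Free F N Y) (X : Matrix (Fin N) (Fin N) F) (y : Y → F) : F :=
  (eval y u.const + ∑ e : Fin N × Fin N, eval y (u.coeff e) * X e.1 e.2) / eval y u.den

/-- the numerator -/
noncomputable def Free.num (u : Free F N Y) : MvPolynomial (Vn N Y) F :=
  rename .inr u.const + ∑ e : Fin N × Fin N, rename .inr (u.coeff e) * X (.inl e)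

lemma Free.eval_num (u : Free F N Y) (p : Vn N Y → F) :
    eval p u.num / eval p (rename .inr u.den) = u.val (matOf p) (fun y => p (.inr y)) := by
  rw [Free.num, Free.val, map_add, map_sum, eval_ren, eval_ren]
  congr 2
  refine Finset.sum_congr rfl fun e _ => ?_
  rw [map_mul, eval_ren, eval_X]
  rfl

/-- **The bound.** -/
theorem det_bound [CharZero F] (hn : 3 * n ≤ N) (P Q : MvPolynomial Y F) {ι : Type} [Fintype ι]
    (given : ι → Free F N Y) (t : Alg F (Y → F) ι) (L : ℕ) (p q : ℝ) (hpq : q < p)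
    (G G' : MvPolynomial (Vn N Y) F)
    (hG : ∃ (X : Matrix (Fin N) (Fin N) F) (y : Y → F), eval y Q * X.det = eval y P ∧
      eval y P ≠ 0 ∧ eval (pack X y) G ≠ 0 ∧ ∀ i, eval y (given i).den ≠ 0)
    (hG' : G' ≠ 0)
    (hX : ∀ (X : Matrix (Fin N) (Fin N) F) (y : Y → F), eval y Q * X.det = eval y P →
      eval (pack X y) G ≠ 0 → p ≤ t.prob L y (fun i => (given i).val X y))
    (hW : ∀ (X : Matrix (Fin N) (Fin N) F) (y : Y → F), eval (pack X y) G' ≠ 0 →
      t.prob L y (fun i => (given i).val X y) ≤ q) :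
    Approx (mm F n) (4 * L) := by
  classical
  have : Infinite F := Infinite.of_injective (Nat.cast : ℕ → F) Nat.cast_injective
  rcases Nat.eq_zero_or_pos n with rfl | hn0
  · exact ⟨0, fun _ _ => 0, fun _ _ => 0, fun _ _ => 0, fun _ _ _ => 0, fun i => i.1.elim0⟩
  obtain ⟨X₀, y₀, hXy, hP0, hGy, hden⟩ := hG
  have r₀ : Fin N := ⟨0, by omega⟩
  set p₀ : Vn N Y → F := pack X₀ y₀ with hp₀
  have hmat : matOf p₀ = X₀ := rfl
  have hy₀ : (fun y => p₀ (.inr y)) = y₀ := rfl
  have hdet : X₀.det ≠ 0 := by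
    intro h
    rw [h, mul_zero] at hXy
    exact hP0 hXy.symm
  have hQ0 : eval y₀ Q ≠ 0 := by
    intro h
    rw [h, zero_mul] at hXy
    exact hP0 hXy.symm
  obtain ⟨s₀, hs₀⟩ : ∃ s₀, X₀.adjugate s₀ r₀ ≠ 0 := by
    by_contra hcon
    push Not at hcon
    apply hdet
    rw [Matrix.det_eq_sum_mul_adjugate_row X₀ r₀]
    exact Finset.sum_eq_zero fun j _ => by rw [hcon, mul_zero]
  by_contra hno
  rw [mul_comm 4 L] at hno
  have hf := fP_eq P Q r₀ s₀
  have hs := sP_free Q r₀ s₀
  have hg := gP_free P Q r₀ s₀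
  have hsp₀ : eval p₀ (sP Q r₀ s₀) ≠ 0 := by
    rw [eval_sP, hy₀, hmat]
    exact mul_ne_zero hQ0 hs₀
  have hs0 : sP Q r₀ s₀ ≠ 0 := by
    intro h
    rw [h, map_zero] at hsp₀
    exact hsp₀ rfl
  have hfp₀ : eval p₀ (fP P Q N) = 0 := by
    rw [eval_fP, hy₀, hmat, hXy, sub_self]
  have hnz := nz_of_point hs hg hf hs0 G p₀ hfp₀ hsp₀ hGy
  have hnzP := nz_of_point hs hg hf hs0 (rename .inr P) p₀ hfp₀ hsp₀ (by rwa [eval_ren, hy₀])
  -- the given values
  set den : ι → MvPolynomial (Vn N Y) F := fun i => rename .inr (given i).den with hdenD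
  set D : MvPolynomial (Vn N Y) F := ∏ i, den i with hD
  set R : ι → MvPolynomial (Vn N Y) F :=
    fun i => (given i).num * ∏ j ∈ Finset.univ.erase i, den j with hR
  have hDi : ∀ i, D = den i * ∏ j ∈ Finset.univ.erase i, den j := fun i =>
    (Finset.mul_prod_erase Finset.univ den (Finset.mem_univ i)).symm
  have hyD : eval p₀ D ≠ 0 := by
    rw [hD, map_prod]
    refine Finset.prod_ne_zero_iff.2 fun i _ => ?_
    simp only [hdenD]
    rw [eval_ren, hy₀]
    exact hden i
  have hnzD := nz_of_point hs hg hf hs0 D p₀ hfp₀ hsp₀ hyD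
  have hθ : ∀ p : Vn N Y → F, At (.inl (r₀, s₀) : Vn N Y) p (theta hn (.inl (r₀, s₀)) p) :=
    fun p => theta_at hn r₀ s₀ p
  have hinv : Inv (.inl (r₀, s₀) : Vn N Y) (theta hn (.inl (r₀, s₀))) (sP Q r₀ s₀)
      (gP P Q r₀ s₀) 0 D R := by
    filter_upwards [hnzD] with x hx
    refine ⟨hx, Fin.elim0, Fin.elim0, fun i => ?_⟩
    set p := pt (.inl (r₀, s₀)) (sP Q r₀ s₀) (gP P Q r₀ s₀) x with hp
    have hx' : eval p (den i) ≠ 0 := by
      rw [hDi i, map_mul] at hx
      exact left_ne_zero_of_mul hx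
    have hx2 : eval (fun y => p (.inr y)) (given i).den ≠ 0 := by
      simp only [hdenD] at hx'
      rwa [eval_ren] at hx'
    refine ⟨Jet.cst (PowerSeries.C (eval (fun y => p (.inr y)) (given i).den)⁻¹) *
      Psi (theta hn (.inl (r₀, s₀)) p) (given i).num, ?_, ?_⟩
    · have h1 : Psi (theta hn (.inl (r₀, s₀)) p) (den i) *
          Jet.cst (PowerSeries.C (eval (fun y => p (.inr y)) (given i).den)⁻¹) = 1 := by
        simp only [hdenD]
        rw [Psi_ren, ← map_mul, ← map_mul, mul_inv_cancel₀ hx2, map_one, map_one]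
      rw [hDi i]
      simp only [hR]
      rw [map_mul, map_mul]
      linear_combination (Psi (theta hn (.inl (r₀, s₀)) p) (given i).num *
        Psi (theta hn (.inl (r₀, s₀)) p) (∏ j ∈ Finset.univ.erase i, den j)) * h1
    · have h2 : (Psi (theta hn (.inl (r₀, s₀)) p) (given i).num).low =
          Psi (theta hn (.inl (r₀, s₀)) p) (given i).num := by
        rw [Free.num, map_add, map_sum, Psi_ren, Jet.low_add, Jet.low_cst, Jet.low_sum]
        congr 1
        refine Finset.sum_congr rfl fun e _ => ?_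
        rw [map_mul, Psi_ren, Jet.low_cst_mul, Psi_X, theta_low]
      rw [Jet.low_cst_mul, h2, sub_self]
      exact Ideal.zero_mem _
  have hmem : ∀ p, eval p D ≠ 0 →
      mem D R p = fun i => (given i).val (matOf p) (fun y => p (.inr y)) := by
    intro p hp
    funext i
    simp only [mem, hR]
    rw [← (given i).eval_num]
    rw [hDi i, map_mul, map_mul]
    rw [hDi i, map_mul] at hp
    exact mul_div_mul_right _ _ (right_ne_zero_of_mul hp)
  have hD0 : D ≠ 0 := by
    intro h
    rw [h, map_zero] at hyD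
    exact hyD rfl
  have hT : ∀ᶠ x in gen F (Vn N Y), KeyAt (Psi (theta hn (.inl (r₀, s₀))
      (pt (.inl (r₀, s₀)) (sP Q r₀ s₀) (gP P Q r₀ s₀) x)) (fP P Q N)) (mm F n) := by
    filter_upwards [hnzP, ev_ne hs0] with x hx hx'
    refine key_at hn r₀ s₀ _ P Q (eval_pt_f hs hg hf hx') ?_
    rwa [eval_ren] at hx
  set U : Ultrafilter (Vn N Y → F) := Ultrafilter.of (gen F (Vn N Y)) with hU
  have hUle : (U : Filter (Vn N Y → F)) ≤ gen F (Vn N Y) := Ultrafilter.of_le _
  obtain ⟨ρ, h1, h2⟩ := induct hθ hs hg hf hs0 hT hno U hUle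
    (fun p => (fun y => p (.inr y))) t 0 L (by omega) D R hinv
  have g1 := hnz.filter_mono hUle
  have g2 := (ev_ne hs0).filter_mono hUle
  have g3 := (ev_ne hG').filter_mono hUle
  have g4 := hnzD.filter_mono hUle
  have g5 := (ev_ne hD0).filter_mono hUle
  obtain ⟨x, hx1, hx2, hx3, hx4, hx5, hx6, hx7⟩ :=
    (h1.and (h2.and (g1.and (g2.and (g3.and (g4.and g5)))))).exists
  rw [hmem _ hx6] at hx1
  rw [hmem _ hx7] at hx2
  set x' := pt (.inl (r₀, s₀)) (sP Q r₀ s₀) (gP P Q r₀ s₀) x with hx'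
  have hxy : (fun y => x' (.inr y)) = fun y => x (.inr y) := by
    funext y
    simp [hx', pt]
  have e0 := eval_pt_f hs hg hf hx4
  rw [eval_fP, sub_eq_zero] at e0
  have e1 := hX (matOf x') (fun y => x' (.inr y)) e0 (by rwa [pack_eta])
  have e2 := hW (matOf x) (fun y => x (.inr y)) (by rwa [pack_eta])
  rw [hxy] at e1 hx1
  linarith

/-- A probabilistic algorithm for an `N × N` matrix `X` and parameters `y`, which starts with the
values `given` and may ask arbitrary questions about `y`, tells generic pairs `(X, y)` with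
`Q (y) det X = P (y)` from generic pairs, with at most `L` multiplications and divisions and with some
advantage: for some `q < p` it accepts with probability at least `p` if `Q (y) det X = P (y)`
(outside the zero set of a polynomial `G` which does not vanish at some such pair with `P (y) ≠ 0` at
which the values `given` are defined), and with probability at most `q` outside the zero set of a
nonzero polynomial `G'`. -/
def Distinguishes (P Q : MvPolynomial Y F) {ι : Type} [Fintype ι] (given : ι → Free F N Y)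
    (t : Alg F (Y → F) ι) (L : ℕ) : Prop :=
  ∃ p q : ℝ, q < p ∧ ∃ G G' : MvPolynomial (Vn N Y) F,
    (∃ (X : Matrix (Fin N) (Fin N) F) (y : Y → F), eval y Q * X.det = eval y P ∧
      eval y P ≠ 0 ∧ eval (pack X y) G ≠ 0 ∧ ∀ i, eval y (given i).den ≠ 0) ∧ G' ≠ 0 ∧
    (∀ (X : Matrix (Fin N) (Fin N) F) (y : Y → F), eval y Q * X.det = eval y P →
      eval (pack X y) G ≠ 0 → p ≤ t.prob L y (fun i => (given i).val X y)) ∧
    (∀ (X : Matrix (Fin N) (Fin N) F) (y : Y → F), eval (pack X y) G' ≠ 0 →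
      t.prob L y (fun i => (given i).val X y) ≤ q)

/-- The algorithm decides membership in `SL_N` with at most `L` multiplications and divisions: the
probability of acceptance is at least `p` if `det X = 1` and at most `q` otherwise. -/
def DecidesSL (t : Alg F Unit (Fin N × Fin N)) (L : ℕ) (p q : ℝ) : Prop :=
  ∀ X : Matrix (Fin N) (Fin N) F, (X.det = 1 → p ≤ t.prob L () (fun e => X e.1 e.2)) ∧
    (X.det ≠ 1 → t.prob L () (fun e => X e.1 e.2) ≤ q)

theorem Distinguishes.bound [CharZero F] (hn : 1 ≤ n) (hN : 3 * n ≤ N) {P Q : MvPolynomial Y F}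
    {ι : Type} [Fintype ι] {given : ι → Free F N Y} {t : Alg F (Y → F) ι} {L : ℕ}
    (h : Distinguishes P Q given t L) :
    Approx (mm F n) (4 * L) ∧ (n : ℝ) ^ omega F ≤ 4 * L := by
  obtain ⟨p, q, hpq, G, G', hG, hG', hX, hW⟩ := h
  have H := det_bound hN P Q given t L p q hpq G G' hG hG' hX hW
  refine ⟨H, ?_⟩
  obtain ⟨h, hAD⟩ := AD_of_approx H
  have := hAD.omega_le hn
  push_cast at this
  exact this

/-- the entries as given values -/
noncomputable def entries (F : Type) [Field F] (N : ℕ) (e : Fin N × Fin N) : Free F N Empty :=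
  ⟨0, fun e' => open Classical in if e' = e then 1 else 0, 1⟩

lemma entries_val (X : Matrix (Fin N) (Fin N) F) (y : Empty → F) (e : Fin N × Fin N) :
    (entries F N e).val X y = X e.1 e.2 := by
  classical
  simp only [entries, Free.val, map_zero, zero_add, map_one, div_one]
  rw [Finset.sum_eq_single e]
  · simp
  · intro e' _ h
    simp [h]
  · intro h
    exact absurd (Finset.mem_univ e) h

theorem DecidesSL.distinguishes [CharZero F] (hN : 1 ≤ N) {t : Alg F Unit (Fin N × Fin N)} {L : ℕ}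
    {p q : ℝ} (hpq : q < p) (h : DecidesSL t L p q) :
    ∃ t' : Alg F (Empty → F) (Fin N × Fin N),
      Distinguishes (1 : MvPolynomial Empty F) 1 (entries F N) t' L := by
  have hval : ∀ (X : Matrix (Fin N) (Fin N) F) (y : Empty → F),
      (t.comp (fun _ : Empty → F => ()) Aff.single).prob L y
        (fun i => (entries F N i).val X y) = t.prob L () (fun e => X e.1 e.2) := by
    intro X y
    rw [Alg.comp_prob]
    congr 1
    funext i
    rw [Aff.single_val]
    exact entries_val X y i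
  refine ⟨t.comp (fun _ => ()) Aff.single, p, q, hpq, 1, fP 1 1 N,
    ⟨1, Empty.elim, by simp, by simp, by simp, fun i => by simp [entries]⟩, ?_,
    fun X y h0 _ => ?_, fun X y h0 => ?_⟩
  · intro h0
    have h1 : eval (pack (0 : Matrix (Fin N) (Fin N) F) Empty.elim) (fP 1 1 N) = 0 := by
      rw [h0, map_zero]
    rw [eval_fP] at h1
    have h2 : matOf (pack (0 : Matrix (Fin N) (Fin N) F) (Empty.elim : Empty → F)) = 0 := rfl
    have : Nonempty (Fin N) := ⟨⟨0, by omega⟩⟩
    rw [h2, Matrix.det_zero] at h1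
    simp at h1
  · rw [hval]
    simp only [map_one, one_mul] at h0
    exact (h X).1 h0
  · rw [hval]
    refine (h X).2 fun hdet => h0 ?_
    rw [eval_fP]
    have h2 : matOf (pack X y) = X := rfl
    rw [h2, hdet]
    simp

lemma third (N : ℕ) (hN : 3 ≤ N) : (N : ℝ) ≤ 5 * ((N / 3 : ℕ) : ℝ) := by
  have : N ≤ 5 * (N / 3) := by omega
  exact_mod_cast this

theorem exponent [CharZero F] {τ D : ℝ}
    (H : ∃ᶠ N : ℕ in atTop, ∃ (Y : Type) (P Q : MvPolynomial Y F) (ι : Type) (_ : Fintype ι)
      (given : ι → Free F N Y) (t : Alg F (Y → F) ι) (L : ℕ), (L : ℝ) ≤ D * (N : ℝ) ^ τ ∧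
      Distinguishes P Q given t L) : omega F ≤ τ := by
  refine exponent_le (C := 5 ^ omega F * (4 * D)) ?_
  refine (H.and_eventually (eventually_ge_atTop 3)).mono ?_
  rintro N ⟨⟨Y, P, Q, ι, _, given, t, L, hL, h⟩, hN⟩
  have h1 := (h.bound (n := N / 3) (by omega) (by omega)).2
  have h6 : (N : ℝ) ^ omega F ≤ 5 ^ omega F * ((N / 3 : ℕ) : ℝ) ^ omega F := by
    rw [← Real.mul_rpow (by norm_num) (Nat.cast_nonneg _)]
    exact Real.rpow_le_rpow (by positivity) (third N hN) omega_nonneg
  have h7 : (0 : ℝ) < 5 ^ omega F := Real.rpow_pos_of_pos (by norm_num) _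
  calc (N : ℝ) ^ omega F ≤ 5 ^ omega F * ((N / 3 : ℕ) : ℝ) ^ omega F := h6
    _ ≤ 5 ^ omega F * (4 * D * (N : ℝ) ^ τ) := by
        apply mul_le_mul_of_nonneg_left _ h7.le
        linarith
    _ = _ := by ring

theorem exponentSL [CharZero F] {τ D : ℝ}
    (H : ∃ᶠ N : ℕ in atTop, ∃ (t : Alg F Unit (Fin N × Fin N)) (L : ℕ) (p q : ℝ),
      (L : ℝ) ≤ D * (N : ℝ) ^ τ ∧ q < p ∧ DecidesSL t L p q) : omega F ≤ τ := by
  refine exponent (D := D) ?_
  refine (H.and_eventually (eventually_ge_atTop 1)).mono ?_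
  rintro N ⟨⟨t, L, p, q, hL, hpq, h⟩, hN⟩
  obtain ⟨t', ht'⟩ := h.distinguishes hN hpq
  exact ⟨Empty, 1, 1, _, inferInstance, entries F N, t', L, hL, ht'⟩

end Pool.Agent.Helper321_Det
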