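import Pool.Agent.Helper321_Dec.Induct

set_option autoImplicit false

/-!
# Runs at the generic points of a hypersurface and of the space, with general directions

The algebraic heart of the bound for `det X = 1`; compare `Pool.Agent.Helper321_Dec.Key` and
`Pool.Agent.Helper321_Dec.Induct`, where the directions are coordinate directions.
-/

namespace Pool.Agent.Helper321_Det

open MvPolynomial Pool.Agent.Helper321_Dec

variable {F V I J K Ω : Type} [Field F]

/-- the evaluation at a point of the space over the ring of the expansions -/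
noncomputable def Psi (θ : V → Jet (PowerSeries F) I J K) :
    MvPolynomial V F →+* Jet (PowerSeries F) I J K :=
  eval₂Hom (Jet.cst.comp PowerSeries.C) θ

lemma Psi_C (θ : V → Jet (PowerSeries F) I J K) (c : F) :
    Psi θ (C c) = Jet.cst (PowerSeries.C c) := by
  simp [Psi]

lemma Psi_X (θ : V → Jet (PowerSeries F) I J K) (w : V) : Psi θ (X w) = θ w := by
  simp [Psi]

/-- what is needed of the expansion of `f`: no linear and no bilinear terms, and the trilinear ones
are a nonzero multiple of `T` modulo `t` -/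
def KeyAt (φ : Jet (PowerSeries F) I J K) (T : I → J → K → F) : Prop :=
  (∀ i, φ.a i = 0) ∧ (∀ j, φ.b j = 0) ∧ (∀ k, φ.c k = 0) ∧ (∀ i j, φ.ab i j = 0) ∧
    (∀ i k, φ.ac i k = 0) ∧ (∀ j k, φ.bc j k = 0) ∧
    ∃ c : F, c ≠ 0 ∧ ∃ S : I → J → K → PowerSeries F, ∀ i j k,
      φ.abc i j k = PowerSeries.C (c * T i j k) + PowerSeries.X * S i j k

lemma pow_high (φ : Jet (PowerSeries F) I J K) {T : I → J → K → F} (h : KeyAt φ T) (n : ℕ) :
    φ ^ (n + 1) = Jet.cst (φ.z ^ (n + 1)) +
      Jet.cst (((n + 1 : ℕ) : PowerSeries F) * φ.z ^ n) * (φ - Jet.cst φ.z) := by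
  obtain ⟨h1, h2, h3, h4, h5, h6, -⟩ := h
  have hsq : (φ - Jet.cst φ.z) * (φ - Jet.cst φ.z) = 0 := by
    ext <;> simp [h1, h2, h3, h4, h5, h6]
  have e := pow_succ_of_sq_zero (Jet.cst φ.z) (φ - Jet.cst φ.z) hsq n
  rw [show Jet.cst φ.z + (φ - Jet.cst φ.z) = φ by ring] at e
  rw [e, ← map_pow, ← map_pow, ← map_natCast Jet.cst, map_mul]

/-- the algebraic heart of the matter -/
lemma core [CharZero F] {T : I → J → K → F} {m n : ℕ}
    (φ w u : Jet (PowerSeries F) I J K) (s0 : F) (hs0 : s0 ≠ 0)
    (hφ : φ.z = PowerSeries.X * PowerSeries.C s0) (hT : KeyAt φ T) (hw : IsUnit w.z)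
    (hu : u = φ ^ (n + 1) * w)
    (α β : Fin m → Jet (PowerSeries F) I J K)
    (hr : u - u.low ∈ Ideal.span (Set.range fun t => (α t).lin * (β t).lin)) :
    Approx T (m * 4) := by
  have hpow := pow_high φ hT n
  obtain ⟨h1, h2, h3, h4, h5, h6, c, hc, S, hS⟩ := hT
  have habc : ∀ i j k, u.abc i j k = φ.z ^ (n + 1) * w.abc i j k +
      ((n + 1 : ℕ) : PowerSeries F) * φ.z ^ n * (φ.abc i j k * w.z) := by
    intro i j k
    rw [hu, hpow]
    generalize φ.z ^ (n + 1) = A
    generalize ((n + 1 : ℕ) : PowerSeries F) * φ.z ^ n = B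
    simp [h1, h2, h3, h4, h5, h6]
    ring
  obtain ⟨W, hW⟩ : ∃ W : PowerSeries F,
      W * (((n + 1 : ℕ) : PowerSeries F) * PowerSeries.C s0 ^ n * w.z * PowerSeries.C c) = 1 := by
    have h1 : IsUnit (((n + 1 : ℕ) : PowerSeries F) * PowerSeries.C s0 ^ n * w.z *
        PowerSeries.C c) := by
      refine IsUnit.mul (IsUnit.mul (IsUnit.mul ?_ (IsUnit.pow _ ?_)) hw) ?_
      · rw [PowerSeries.isUnit_iff_constantCoeff, map_natCast]
        exact isUnit_iff_ne_zero.2 (Nat.cast_ne_zero.2 (Nat.succ_ne_zero n))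
      · rw [PowerSeries.isUnit_iff_constantCoeff, PowerSeries.constantCoeff_C]
        exact isUnit_iff_ne_zero.2 hs0
      · rw [PowerSeries.isUnit_iff_constantCoeff, PowerSeries.constantCoeff_C]
        exact isUnit_iff_ne_zero.2 hc
    obtain ⟨W, hW⟩ := h1.exists_left_inv
    exact ⟨W, hW⟩
  have h4' : (PowerSeries.C ((4 : F)⁻¹)) * 4 = (1 : PowerSeries F) := by
    have : (4 : PowerSeries F) = PowerSeries.C (4 : F) := (map_ofNat PowerSeries.C 4).symm
    rw [this, ← map_mul, inv_mul_cancel₀ (by norm_num), map_one]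
  have hrk : RankLe (fun i j k => u.abc i j k) (m * 4) := by
    have := rank_ideal (PowerSeries.C ((4 : F)⁻¹)) (by rw [mul_comm]; exact h4') α β _ hr
    convert this using 4 with i j k
    simp [Jet.low]
  have R3 := hrk.smul W
  refine approx_of_powerSeries (h := n)
    (fun i j k => W * PowerSeries.C s0 ^ (n + 1) * w.abc i j k +
      W * ((n + 1 : ℕ) : PowerSeries F) * PowerSeries.C s0 ^ n * w.z * S i j k) ?_
  convert R3 using 4 with i j k
  rw [habc, hS, hφ, map_mul]
  linear_combination (-(PowerSeries.X ^ n * PowerSeries.C (T i j k))) * hW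

/-- the expansions of affine combinations -/
lemma aff_jet {ι : Type} [Fintype ι] {θ : V → Jet (PowerSeries F) I J K}
    {A : Ideal (Jet (PowerSeries F) I J K)} {D : MvPolynomial V F} {P : ι → MvPolynomial V F}
    (h : ∀ i, ∃ u, Psi θ D * u = Psi θ (P i) ∧ u - u.low ∈ A)
    (w : Aff F ι) :
    ∃ u, Psi θ D * u = Psi θ (affP w D P) ∧ u - u.low ∈ A := by
  choose U hU hA using h
  refine ⟨Jet.cst (PowerSeries.C w.const) + ∑ i, Jet.cst (PowerSeries.C (w.coeff i)) * U i,
    ?_, ?_⟩
  · rw [affP, map_add, map_mul, map_sum, Psi_C, mul_add, Finset.mul_sum]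
    congr 1
    · ring
    · refine Finset.sum_congr rfl fun i _ => ?_
      rw [map_mul, Psi_C, ← hU i]
      ring
  · rw [Jet.low_add, Jet.low_cst, Jet.low_sum]
    have e : (Jet.cst (PowerSeries.C w.const) +
        ∑ i, Jet.cst (PowerSeries.C (w.coeff i)) * U i) -
        (Jet.cst (PowerSeries.C w.const) +
        ∑ i, (Jet.cst (PowerSeries.C (w.coeff i)) * U i).low) =
        ∑ i, Jet.cst (PowerSeries.C (w.coeff i)) * (U i - (U i).low) := by
      rw [add_sub_add_left_eq_sub, ← Finset.sum_sub_distrib]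
      refine Finset.sum_congr rfl fun i _ => ?_
      rw [Jet.low_cst_mul, mul_sub]
    rw [e]
    exact A.sum_mem fun i _ => A.mul_mem_left _ (hA i)

variable [DecidableEq V]

/-- the expansion at the point `p + t e_v` -/
def At (v : V) (p : V → F) (θ : V → Jet (PowerSeries F) I J K) : Prop :=
  ∀ w, (θ w).z = PowerSeries.C (p w) + if w = v then PowerSeries.X else 0

lemma Psi_z {v : V} {p : V → F} {θ : V → Jet (PowerSeries F) I J K} (h : At v p θ)
    (P : MvPolynomial V F) :
    (Psi θ P).z = ((line v p P : Polynomial F) : PowerSeries F) := by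
  have : (Jet.zHom.comp (Psi θ)) =
      (Polynomial.coeToPowerSeries.ringHom.comp (line v p)) := by
    apply MvPolynomial.ringHom_ext
    · intro r
      simp [line, Psi]
    · intro w
      by_cases h' : w = v
      · subst h'
        simp [line, Psi, h w]
      · simp [line, Psi, h w, h']
  have h2 := congrArg (fun φ => φ P) this
  simpa using h2

lemma Psi_const {v : V} {p : V → F} {θ : V → Jet (PowerSeries F) I J K} (h : At v p θ)
    (P : MvPolynomial V F) :
    PowerSeries.constantCoeff (Psi θ P).z = eval p P := by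
  rw [Psi_z h, Polynomial.constantCoeff_coe, Polynomial.coeff_zero_eq_eval_zero, line_eval]
  simp

lemma isUnit_Psi {v : V} {p : V → F} {θ : V → Jet (PowerSeries F) I J K} (h : At v p θ)
    {P : MvPolynomial V F} (hP : eval p P ≠ 0) : IsUnit (Psi θ P) := by
  apply Jet.isUnit_of_z
  rw [PowerSeries.isUnit_iff_constantCoeff, Psi_const h]
  exact isUnit_iff_ne_zero.2 hP

lemma Psi_f_z [Infinite F] {v : V} {s g f : MvPolynomial V F}
    (hs : s ∈ free v) (hg : g ∈ free v) (hf : f = s * X v + g) {p : V → F}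
    {θ : V → Jet (PowerSeries F) I J K} (h : At v p θ) (hp : eval p f = 0) :
    (Psi θ f).z = PowerSeries.X * PowerSeries.C (eval p s) := by
  rw [Psi_z h, hf, map_add, map_mul, line_free hs, line_free hg]
  have h1 : line v p (X v) = Polynomial.C (p v) + Polynomial.X := by simp [line]
  rw [h1]
  have h2 : Polynomial.C (eval p s) * (Polynomial.C (p v) + Polynomial.X) +
      Polynomial.C (eval p g) = Polynomial.X * Polynomial.C (eval p s) := by
    rw [hf, map_add, map_mul, eval_X] at hp
    have : Polynomial.C (eval p s * p v + eval p g) = (0 : Polynomial F) := by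
      rw [hp, map_zero]
    rw [map_add, map_mul] at this
    linear_combination this
  rw [h2, Polynomial.coe_mul, Polynomial.coe_X, Polynomial.coe_C]

/-- the state after `m` operations on the generic path of the hypersurface -/
def Inv (v : V) (θ : (V → F) → V → Jet (PowerSeries F) I J K) (s g : MvPolynomial V F) (m : ℕ)
    {ι : Type} (D : MvPolynomial V F) (P : ι → MvPolynomial V F) : Prop :=
  ∀ᶠ x in gen F V, eval (pt v s g x) D ≠ 0 ∧
    ∃ (α β : Fin m → Jet (PowerSeries F) I J K), ∀ i, ∃ u,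
      Psi (θ (pt v s g x)) D * u = Psi (θ (pt v s g x)) (P i) ∧
      u - u.low ∈ prods α β

lemma Inv.mul {v : V} {θ : (V → F) → V → Jet (PowerSeries F) I J K} {s g : MvPolynomial V F}
    {m : ℕ} {ι : Type} [Fintype ι] {D : MvPolynomial V F} {P : ι → MvPolynomial V F}
    (h : Inv v θ s g m D P) (u w : Aff F ι) :
    Inv v θ s g (m + 1) (D * D) (mulP u w D P) := by
  filter_upwards [h] with x hx
  obtain ⟨hD, α, β, hx⟩ := hx
  refine ⟨by rw [map_mul]; exact mul_ne_zero hD hD, ?_⟩
  obtain ⟨a, ha, ha'⟩ := aff_jet hx u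
  obtain ⟨b, hb, hb'⟩ := aff_jet hx w
  refine ⟨Fin.snoc α a, Fin.snoc β b, fun o => ?_⟩
  cases o with
  | none =>
    refine ⟨a * b, ?_, high_mul (prods_snoc_le α β a b ha') (prods_snoc_le α β a b hb')
      (mem_prods_snoc α β a b)⟩
    simp only [mulP]
    rw [map_mul, map_mul, ← ha, ← hb]
    ring
  | some i =>
    obtain ⟨y, hy, hy'⟩ := hx i
    refine ⟨y, ?_, prods_snoc_le α β a b hy'⟩
    simp only [mulP]
    rw [map_mul, map_mul, ← hy]
    ring

lemma Inv.div {v : V} {θ : (V → F) → V → Jet (PowerSeries F) I J K} (hθ : ∀ p, At v p (θ p))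
    {s g : MvPolynomial V F} {m : ℕ}
    {ι : Type} [Fintype ι] {D : MvPolynomial V F} {P : ι → MvPolynomial V F}
    (h : Inv v θ s g m D P) (u w : Aff F ι)
    (hw : ∀ᶠ x in gen F V, eval (pt v s g x) (affP w D P) ≠ 0) :
    Inv v θ s g (m + 1) (D * affP w D P) (divP u w D P) := by
  filter_upwards [h, hw] with x hx hw
  obtain ⟨hD, α, β, hx⟩ := hx
  refine ⟨by rw [map_mul]; exact mul_ne_zero hD hw, ?_⟩
  obtain ⟨a, ha, ha'⟩ := aff_jet hx u
  obtain ⟨b, hb, hb'⟩ := aff_jet hx w
  have hbu : IsUnit b := by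
    have h1 : IsUnit (Psi (θ (pt v s g x)) (affP w D P)) := isUnit_Psi (hθ _) hw
    rw [← hb] at h1
    exact isUnit_of_mul_isUnit_right h1
  obtain ⟨b', hb1⟩ := hbu.exists_right_inv
  have hq : a * b' * b = a := by linear_combination a * hb1
  refine ⟨Fin.snoc α (a * b'), Fin.snoc β b, fun o => ?_⟩
  cases o with
  | none =>
    refine ⟨a * b', ?_, high_div (prods_snoc_le α β _ b ha') (prods_snoc_le α β _ b hb') hq hbu
      (mem_prods_snoc α β _ b)⟩
    simp only [divP]
    rw [map_mul, map_mul, ← ha, ← hb]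
    linear_combination (Psi (θ (pt v s g x)) D) ^ 2 * hq
  | some i =>
    obtain ⟨y, hy, hy'⟩ := hx i
    refine ⟨y, ?_, prods_snoc_le α β _ b hy'⟩
    simp only [divP]
    rw [map_mul, map_mul, ← hy]
    ring

/-- **Key lemma.** A rational function `P / D` which is not zero, vanishes at the generic point of the
hypersurface, and whose expansion is obtained with `m` products. -/
lemma approx_of_vanishing [CharZero F] {v : V} {θ : (V → F) → V → Jet (PowerSeries F) I J K}
    (hθ : ∀ p, At v p (θ p)) {s g f : MvPolynomial V F} (hs : s ∈ free v) (hg : g ∈ free v)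
    (hf : f = s * X v + g) (hs0 : s ≠ 0) {T : I → J → K → F}
    (hT : ∀ᶠ x in gen F V, KeyAt (Psi (θ (pt v s g x)) f) T) {m : ℕ}
    (D P : MvPolynomial V F) (hP : P ≠ 0) (hPX : ∀ᶠ x in gen F V, eval (pt v s g x) P = 0)
    (hst : ∀ᶠ x in gen F V, eval (pt v s g x) D ≠ 0 ∧
      ∃ (α β : Fin m → Jet (PowerSeries F) I J K) (u : Jet (PowerSeries F) I J K),
        Psi (θ (pt v s g x)) D * u = Psi (θ (pt v s g x)) P ∧
        u - u.low ∈ prods α β) :
    Approx T (m * 4) := by
  have : Infinite F := Infinite.of_injective (Nat.cast : ℕ → F) Nat.cast_injective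
  obtain ⟨d, Q, hQ, hdec⟩ := exists_expansion hs hg hf P
  have hQ0 : Q ≠ 0 := by
    rintro rfl
    rw [Polynomial.eval_zero] at hdec
    exact (mul_ne_zero (pow_ne_zero _ hs0) hP) hdec
  obtain ⟨e, Q', hQQ', hQ'0⟩ : ∃ (e : ℕ) (Q' : Polynomial (MvPolynomial V F)),
      Q = Polynomial.X ^ e * Q' ∧ Q'.coeff 0 ≠ 0 := by
    obtain ⟨q, hq1, hq2⟩ := Polynomial.exists_eq_pow_rootMultiplicity_mul_and_not_dvd Q hQ0 0
    rw [map_zero, sub_zero] at hq1 hq2
    exact ⟨_, q, hq1, fun h => hq2 (Polynomial.X_dvd_iff.2 h)⟩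
  have hQ'c : Q'.coeff 0 ∈ free (F := F) v := by
    have := hQ e
    rw [hQQ', Polynomial.coeff_X_pow_mul', if_pos le_rfl, Nat.sub_self] at this
    exact this
  rw [hQQ', Polynomial.eval_mul, Polynomial.eval_pow, Polynomial.eval_X] at hdec
  obtain ⟨x, hx1, hx2, hx3, hx5, hx4, α, β, u, hu1, hu2⟩ :=
    ((ev_ne hs0).and ((ev_ne hQ'0).and (hPX.and (hT.and hst)))).exists
  set p := pt v s g x with hp
  have hfp : eval p f = 0 := eval_pt_f hs hg hf hx1
  have hsp : eval p s = eval x s := eval_pt_free hs x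
  have hRp : eval p (Q'.eval f) ≠ 0 := by
    rw [hp, eval_pt_expansion hs hg hf hx1 Q' hQ'c]
    exact hx2
  obtain ⟨n, rfl⟩ : ∃ n, e = n + 1 := by
    cases e with
    | zero =>
      exfalso
      have := congrArg (eval p) hdec
      rw [map_mul, hx3, mul_zero, pow_zero, one_mul] at this
      exact hRp this.symm
    | succ n => exact ⟨n, rfl⟩
  have hU : IsUnit (Psi (θ p) (s ^ d * D)) := by
    apply isUnit_Psi (hθ p)
    rw [map_mul, map_pow, hsp]
    exact mul_ne_zero (pow_ne_zero _ hx1) hx4
  obtain ⟨U, hU'⟩ := hU.exists_left_inv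
  have hR : IsUnit (Psi (θ p) (Q'.eval f)) := isUnit_Psi (hθ p) hRp
  have hUu : IsUnit U := IsUnit.of_mul_eq_one _ hU'
  have huw : u = Psi (θ p) f ^ (n + 1) * (Psi (θ p) (Q'.eval f) * U) := by
    have h1 := congrArg (Psi (θ p)) hdec
    rw [map_mul, map_mul, map_pow, map_pow, ← hu1] at h1
    rw [map_mul, map_pow] at hU'
    linear_combination (-u) * hU' + U * h1
  refine core (Psi (θ p) f) (Psi (θ p) (Q'.eval f) * U) u (eval x s) hx1 ?_ hx5 ?_
    huw α β hu2
  · rw [Psi_f_z hs hg hf (hθ p) hfp, hsp]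
  · exact (hR.mul hUu).map Jet.zHom

/-- **The induction.** If there is no approximate decomposition, the generic runs on the
hypersurface and on the space do not differ. -/
theorem induct [CharZero F] {v : V} {θ : (V → F) → V → Jet (PowerSeries F) I J K}
    (hθ : ∀ p, At v p (θ p)) {s g f : MvPolynomial V F} (hs : s ∈ free v) (hg : g ∈ free v)
    (hf : f = s * X v + g) (hs0 : s ≠ 0) {T : I → J → K → F}
    (hT : ∀ᶠ x in gen F V, KeyAt (Psi (θ (pt v s g x)) f) T) {L : ℕ}
    (hno : ¬ Approx T (L * 4))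
    (U : Ultrafilter (V → F)) (hU : (U : Filter (V → F)) ≤ gen F V) (om : (V → F) → Ω)
    {ι : Type} (t : Alg F Ω ι) :
    ∀ [Fintype ι] (m l : ℕ), m + l = L → ∀ (D : MvPolynomial V F) (P : ι → MvPolynomial V F),
      Inv v θ s g m D P →
      ∃ ρ : ℝ, (∀ᶠ x in U, t.prob l (om x) (mem D P (pt v s g x)) ≤ ρ) ∧
        (∀ᶠ x in U, ρ ≤ t.prob l (om x) (mem D P x)) := by
  have : Infinite F := Infinite.of_injective (Nat.cast : ℕ → F) Nat.cast_injective
  have hne : ∀ P : MvPolynomial V F, (∀ᶠ x in gen F V, eval (pt v s g x) P ≠ 0) → P ≠ 0 := by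
    rintro P h rfl
    obtain ⟨x, hx⟩ := h.exists
    exact hx (map_zero _)
  induction t with
  | halt b =>
    intro _ m l _ D P _
    refine ⟨if b then 1 else 0, Filter.Eventually.of_forall fun x => ?_,
      Filter.Eventually.of_forall fun x => ?_⟩
    · simp only [Alg.prob]; exact le_rfl
    · simp only [Alg.prob]; exact le_rfl
  | mul u w next ih =>
    intro _ m l hml D P hI
    cases l with
    | zero =>
      refine ⟨0, Filter.Eventually.of_forall fun x => ?_, Filter.Eventually.of_forall fun x => ?_⟩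
      · simp only [Alg.prob]; exact le_rfl
      · simp only [Alg.prob]; exact le_rfl
    | succ l =>
      obtain ⟨ρ, h1, h2⟩ := ih (m + 1) l (by omega) (D * D) (mulP u w D P) (hI.mul u w)
      have hD : D ≠ 0 := hne D (hI.mono fun x hx => hx.1)
      refine ⟨ρ, ?_, ?_⟩
      · filter_upwards [h1, hU hI] with x hx hx'
        simp only [Alg.prob]
        rw [mem_mul u w D P _ hx'.1]
        exact hx
      · filter_upwards [h2, hU (ev_ne hD)] with x hx hx'
        simp only [Alg.prob]
        rw [mem_mul u w D P _ hx']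
        exact hx
  | div u w next ih =>
    intro _ m l hml D P hI
    cases l with
    | zero =>
      refine ⟨0, Filter.Eventually.of_forall fun x => ?_, Filter.Eventually.of_forall fun x => ?_⟩
      · simp only [Alg.prob]; exact le_rfl
      · simp only [Alg.prob]; exact le_rfl
    | succ l =>
      rcases dichotomy hs hg hf hs0 (affP w D P) with hz | hz
      · refine ⟨0, ?_, Filter.Eventually.of_forall fun x => Alg.prob_nonneg _ _ _ _⟩
        filter_upwards [hU hz, hU hI] with x hx hx'
        simp only [Alg.prob]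
        rw [affP_val w D P _ hx'.1, hx, zero_div, if_pos rfl]
      · obtain ⟨ρ, h1, h2⟩ := ih (m + 1) l (by omega) (D * affP w D P) (divP u w D P)
          (hI.div hθ u w hz)
        have hD : D ≠ 0 := hne D (hI.mono fun x hx => hx.1)
        refine ⟨ρ, ?_, ?_⟩
        · filter_upwards [h1, hU hI, hU hz] with x hx hx' hz
          simp only [Alg.prob]
          rw [if_neg, mem_div u w D P _ hx'.1 hz]
          · exact hx
          · rw [affP_val w D P _ hx'.1]
            exact div_ne_zero hz hx'.1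
        · filter_upwards [h2, hU (ev_ne hD), hU (ev_ne (hne _ hz))] with x hx hx' hz
          simp only [Alg.prob]
          rw [if_neg, mem_div u w D P _ hx' hz]
          · exact hx
          · rw [affP_val w D P _ hx']
            exact div_ne_zero hz hx'
  | test u t1 t2 ih1 ih2 =>
    intro _ m l hml D P hI
    have hD : D ≠ 0 := hne D (hI.mono fun x hx => hx.1)
    rcases dichotomy hs hg hf hs0 (affP u D P) with hz | hz
    · have h0 : affP u D P = 0 := by
        by_contra hne0
        apply hno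
        refine Approx.mono (approx_of_vanishing (m := m) hθ hs hg hf hs0 hT D (affP u D P)
          hne0 hz ?_) (by omega)
        filter_upwards [hI] with x hx
        obtain ⟨hx1, α, β, hx2⟩ := hx
        obtain ⟨a, ha, ha'⟩ := aff_jet hx2 u
        exact ⟨hx1, α, β, a, ha, ha'⟩
      obtain ⟨ρ, h1, h2⟩ := ih1 m l hml D P hI
      refine ⟨ρ, ?_, ?_⟩
      · filter_upwards [h1, hU hI] with x hx hx'
        simp only [Alg.prob]
        rw [affP_val u D P _ hx'.1, h0, map_zero, zero_div, if_pos rfl]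
        exact hx
      · filter_upwards [h2, hU (ev_ne hD)] with x hx hx'
        simp only [Alg.prob]
        rw [affP_val u D P _ hx', h0, map_zero, zero_div, if_pos rfl]
        exact hx
    · obtain ⟨ρ, h1, h2⟩ := ih2 m l hml D P hI
      refine ⟨ρ, ?_, ?_⟩
      · filter_upwards [h1, hU hI, hU hz] with x hx hx' hz
        simp only [Alg.prob]
        rw [affP_val u D P _ hx'.1, if_neg (div_ne_zero hz hx'.1)]
        exact hx
      · filter_upwards [h2, hU (ev_ne hD), hU (ev_ne (hne _ hz))] with x hx hx' hz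
        simp only [Alg.prob]
        rw [affP_val u D P _ hx', if_neg (div_ne_zero hz hx')]
        exact hx
  | ask S t1 t2 ih1 ih2 =>
    intro _ m l hml D P hI
    rcases Ultrafilter.em U (fun x => S (om x)) with hS | hS
    · obtain ⟨ρ, h1, h2⟩ := ih1 m l hml D P hI
      refine ⟨ρ, ?_, ?_⟩
      · filter_upwards [h1, hS] with x hx hx'
        simp only [Alg.prob]
        rw [if_pos hx']
        exact hx
      · filter_upwards [h2, hS] with x hx hx'
        simp only [Alg.prob]
        rw [if_pos hx']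
        exact hx
    · obtain ⟨ρ, h1, h2⟩ := ih2 m l hml D P hI
      refine ⟨ρ, ?_, ?_⟩
      · filter_upwards [h1, hS] with x hx hx'
        simp only [Alg.prob]
        rw [if_neg hx']
        exact hx
      · filter_upwards [h2, hS] with x hx hx'
        simp only [Alg.prob]
        rw [if_neg hx']
        exact hx
  | random k next ih =>
    intro _ m l hml D P hI
    choose ρ h1 h2 using fun i => ih i m l hml D P hI
    refine ⟨(∑ i, ρ i) / (k + 1), ?_, ?_⟩
    · filter_upwards [Filter.eventually_all.2 h1] with x hx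
      simp only [Alg.prob]
      exact div_le_div_of_nonneg_right (Finset.sum_le_sum fun i _ => hx i) (by positivity)
    · filter_upwards [Filter.eventually_all.2 h2] with x hx
      simp only [Alg.prob]
      exact div_le_div_of_nonneg_right (Finset.sum_le_sum fun i _ => hx i) (by positivity)

end Pool.Agent.Helper321_Det
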