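import Pool.Agent.Helper321_Det.Main

set_option autoImplicit false

/-!
# Testing whether `det X = 1` costs as much as matrix multiplication

Definitions: `Aff`, `Alg`, `Alg.prob` are in `Pool.Agent.Helper321_Dec.Model`, `Free`, `Free.val`,
`Distinguishes`, `DecidesSL` in `Pool.Agent.Helper321_Det.Main`, `Vn`, `pack` in
`Pool.Agent.Helper321_Det.Det`, `E`, `mm` in `Pool.Agent.Helper321_Dec.Mat`, `Approx` in
`Pool.Agent.Helper321_Dec.Rank`, `omega` in `Pool.Agent.TH410.MM.Rank`.
-/

namespace Pool.Agent.Results.MP_e72dc0_lc.UnitDeterminant

open Filter MvPolynomial Pool.Agent.Helper321_Dec Pool.Agent.Helper321_Det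
open Pool.Agent.TH410.MM (omega)

/-- Let `F` be a field of characteristic zero, and let `ω` be the exponent of matrix multiplication
over `F`. The algorithms are probabilistic and have an output of one bit: they make multiplications
and divisions (which are counted), and for free affine combinations, tests for equality and random
choices. So arithmetic circuits whose output is tested for being zero are a special case.

We consider the equation `Q (y) det X = P (y)` for an `N × N` matrix `X` and further parameters `y`,
where `P`, `Q` are arbitrary polynomials: for instance `det X = 1` (no parameters), `det X = y`,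
`det X = det Y` or `det X det Y = 1` for a second matrix `Y` (whose entries are the parameters). The
following may also be free: all values which are polynomials of degree at most one in the entries of
`X` with arbitrary rational functions of `y` as coefficients (`given`), so all rational functions of
the parameters alone and their products with the entries of `X`; and the answers to any yes-no
questions about `y`.

(1) Suppose that such an algorithm, with at most `L` multiplications and divisions, tells generic
pairs `(X, y)` with `Q (y) det X = P (y)` from generic pairs `(X, y)`, with some advantage. Then, if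
`3 n ≤ N`, the border rank of the `n × n` matrix multiplication is at most `4 L`, and `n ^ ω ≤ 4 L`.
(2) Hence `ω ≤ τ` if for infinitely many `N` there are such `P`, `Q` and such algorithms with
`L ≤ D N ^ τ`.
(3) In particular `ω ≤ τ` if for infinitely many `N` a probabilistic algorithm with `L ≤ D N ^ τ`
decides whether `det X = 1` (acceptance with probability at least `p` if `det X = 1` and at most
`q < p` otherwise; `p` and `q` may depend on `N`).

So, while the orthogonal and the symplectic groups have tests with `O(N ^ 2)` operations (Freivalds),
the membership in `SL_N` has such a test only if `ω = 2`. -/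
theorem result (F : Type) [Field F] [CharZero F] :
    (∀ (N n : ℕ) (Y : Type) (P Q : MvPolynomial Y F) (ι : Type) [Fintype ι]
      (given : ι → Free F N Y) (t : Alg F (Y → F) ι) (L : ℕ), 1 ≤ n → 3 * n ≤ N →
      Distinguishes P Q given t L →
      Approx (mm F n) (4 * L) ∧ (n : ℝ) ^ omega F ≤ 4 * L) ∧
    (∀ τ D : ℝ, (∃ᶠ N : ℕ in atTop, ∃ (Y : Type) (P Q : MvPolynomial Y F) (ι : Type)
      (_ : Fintype ι) (given : ι → Free F N Y) (t : Alg F (Y → F) ι) (L : ℕ),
      (L : ℝ) ≤ D * (N : ℝ) ^ τ ∧ Distinguishes P Q given t L) → omega F ≤ τ) ∧
    (∀ τ D : ℝ, (∃ᶠ N : ℕ in atTop, ∃ (t : Alg F Unit (Fin N × Fin N)) (L : ℕ) (p q : ℝ),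
      (L : ℝ) ≤ D * (N : ℝ) ^ τ ∧ q < p ∧ DecidesSL t L p q) → omega F ≤ τ) :=
  ⟨fun _ _ _ _ _ _ _ _ _ _ hn hN h => h.bound hn hN, fun _ _ h => exponent h,
    fun _ _ h => exponentSL h⟩

end Pool.Agent.Results.MP_e72dc0_lc.UnitDeterminant
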